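import Pool.Agent.U896.VM.PubV
import Pool.Agent.U896.SC.PubC

/-!
Nearly nondegenerate two-forms and comparison forms: the definitions used in the statement.
-/

set_option autoImplicit false

open Set Filter Topology MeasureTheory
open scoped Manifold ContDiff

noncomputable section

namespace Pool.Agent.U896.VTP

open Pool.Agent.Y501.SYP Pool.Agent.U896.SWP Pool.Agent.U896.VMP

variable {d : ℕ} {X : Type} [TopologicalSpace X] [ChartedSpace (ES d) X]

/-- `σ` is nearly nondegenerate at `x` and comparable with the forms in `T`: in the chart at `x`,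
for some `c > 0`, on all balls `B(y, t)` with `y` near `x` and `t` small the form is close in the
mean to a convex set `C` of constant forms with the lower bound `c` which contains the values at the
centre `y` of all forms in `T` (the set depends on the ball; the mean distance tends to zero,
uniformly, as `t` tends to zero). -/
def NearlyNondegenerateWith (T : Set (Form (ES d) X 2)) (σ : Form (ES d) X 2) (x : X) : Prop :=
  ∃ c R : ℝ, 0 < c ∧ 0 < R ∧ ∀ δ : ℝ, 0 < δ → ∃ r : ℝ, 0 < r ∧
    ∀ y ∈ Metric.ball (chartAt (ES d) x x) R, ∀ t : ℝ, 0 < t → t ≤ r →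
      ∃ C : Set ((ES d) [⋀^Fin 2]→L[ℝ] ℝ), Convex ℝ C ∧ C.Nonempty ∧
        (∀ η ∈ C, LowerBound c η) ∧ (∀ τ ∈ T, pb (chartAt (ES d) x).symm τ y ∈ C) ∧
        ∫⁻ q in Metric.ball y t,
          ENNReal.ofReal (Metric.infDist (pb (chartAt (ES d) x).symm σ q) C) ∂(leb d) ≤
            ENNReal.ofReal (δ * t ^ d)

end Pool.Agent.U896.VTP
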