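import Pool.Agent.U896.VT.T4
import Pool.Agent.U896.VT.PubT
import Pool.Agent.U896.VM.FinalV
import Pool.Agent.U896.SC.FinalC

/-!
# Nearly nondegenerate forms in a prescribed class: the main theorem, with the public definitions
-/

set_option autoImplicit false

open Set Filter Topology MeasureTheory
open scoped Manifold ContDiff

noncomputable section

namespace Pool.Agent.U896.VTP

open Pool.Agent.Y501
open Pool.Agent.Y501.SYP
open Pool.Agent.U896.SWP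
open Pool.Agent.U896.SVP
open Pool.Agent.U896.SCP
open Pool.Agent.U896.VMP

section

variable {d : ℕ} {X : Type} [TopologicalSpace X] [ChartedSpace (ES d) X]

attribute [local instance] cs mf

theorem lcn_of [IsManifold 𝓘(ℝ, ES d) ∞ X] {σ σ₀ : Form (ES d) X 2} {β : Form (ES d) X 1}
    (hσ₀ : IsSmooth σ₀) (hσ₀c : IsClosedForm σ₀) (hi : LocInt σ) (hi1 : LocInt1 β)
    (hw : WeaklyPlusD σ σ₀ β) (z : X) (p : SY.E d) (hp : p ∈ (chartAt (SY.E d) z).target) :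
    SW.LCn (d := d) (SY.pb (d := d) (X := X) (chartAt (SY.E d) z).symm σ) p := by
  obtain ⟨h1, h2⟩ := SC.closed_chart (d := d) (X := X) ((smooth_iff σ₀).1 hσ₀)
    ((closed_iff σ₀).1 hσ₀c) z
  exact SC.LPp.toLCn (chartAt (SY.E d) z).open_target hp (lp_of hσ₀ hi hi1 hw z p hp) h1 h2

theorem vt_at {T : Set (Form (ES d) X 2)} {σ : Form (ES d) X 2} {x : X}
    (h : NearlyNondegenerateWith T σ x) :
    VT.VTp (d := d) (VT.chT (d := d) (X := X) T x)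
      (SY.pb (d := d) (X := X) (chartAt (SY.E d) x).symm σ) (chartAt (SY.E d) x x) := by
  obtain ⟨c, R, hc, hR, h1⟩ := h
  refine ⟨c, R, hc, hR, fun δ hδ => ?_⟩
  obtain ⟨r, hr, h2⟩ := h1 δ hδ
  refine ⟨r, hr, fun y hy t ht htr => ?_⟩
  obtain ⟨C, hC1, hC2, hC3, hC4, h3⟩ := h2 y hy t ht htr
  refine ⟨C, ⟨hC1, hC2, hC3⟩, ?_, h3⟩
  rintro _ ⟨τ, hτ, rfl⟩
  exact hC4 τ hτ

theorem vt_of [IsManifold 𝓘(ℝ, ES d) ∞ X] {a : ℝ} (ha1 : a < 1) (had : a ≤ d)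
    {T : Set (Form (ES d) X 2)} {σ σ₀ : Form (ES d) X 2} {β : Form (ES d) X 1}
    (hσ₀ : IsSmooth σ₀) (hσ₀c : IsClosedForm σ₀) (hi : LocInt σ) (hi1 : LocInt1 β)
    (hw : WeaklyPlusD σ σ₀ β) (hM : MorreyGrowth a σ) (h : ∀ x, NearlyNondegenerateWith T σ x)
    (z : X) (p : SY.E d) (hp : p ∈ (chartAt (SY.E d) z).target) :
    VT.VTp (d := d) (VT.chT (d := d) (X := X) T z)
      (SY.pb (d := d) (X := X) (chartAt (SY.E d) z).symm σ) p := by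
  obtain ⟨x, hx⟩ : ∃ x, x = (chartAt (SY.E d) z).symm p := ⟨_, rfl⟩
  have h1 := mem_chart_target (SY.E d) x
  refine VT.VTp.trans (d := d) (X := X) (p₁ := chartAt (SY.E d) x x) ha1 had h1 hp ?_
    (lcn_of hσ₀ hσ₀c hi hi1 hw x _ h1) (mor_of hM x _ h1) (vt_at (h x))
  rw [(chartAt (SY.E d) x).left_inv (mem_chart_source (SY.E d) x), hx]

theorem nearlyT [IsManifold 𝓘(ℝ, ES d) ∞ X] [CompactSpace X] [T2Space X] (hd : 0 < d)
    {a : ℝ} (ha : 0 ≤ a) (ha1 : a < 1) (T : Set (Form (ES d) X 2))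
    (σ₀ : Form (ES d) X 2) (hσ₀ : IsSmooth σ₀) (hσ₀c : IsClosedForm σ₀)
    (β : Form (ES d) X 1) (σ : Form (ES d) X 2) (hi1 : LocInt1 β) (hi : LocInt σ)
    (hw : WeaklyPlusD σ σ₀ β) (hM : MorreyGrowth a σ)
    (hn : ∀ x, NearlyNondegenerateWith T σ x) :
    ∃ (α : Form (ES d) X 1) (ρ : Form (ES d) X 2), IsSmooth α ∧ IsSmooth ρ ∧ IsD α ρ ∧
      IsSmooth (addF σ₀ ρ) ∧ IsClosedForm (addF σ₀ ρ) ∧ NondegForm (addF σ₀ ρ) ∧
      ∀ τ ∈ T, ∀ t : ℝ, 0 ≤ t → t ≤ 1 → NondegForm (segment τ (addF σ₀ ρ) t) := by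
  have had : a ≤ d := by
    have : (1 : ℝ) ≤ d := by exact_mod_cast hd
    linarith
  obtain ⟨α, ρ, h1, h2, h3, h4, h5⟩ := VT.mainCT (d := d) (X := X) ha ha1 had
    Pool.Agent.Y394.SY.t_SM Pool.Agent.Y689.SY.t_HH
    Pool.Agent.Y949.SY.t_PATCH2 Pool.Agent.Y891.SY.t_PATCHP (𝒯 := T) (K := univ) isClosed_univ
    (σ₀ := σ₀) ((smooth_iff σ₀).1 hσ₀) ((closed_iff σ₀).1 hσ₀c) (β := β) (σ := σ)
    ⟨fun V φ hV hφ hp p hpV => absurd (mem_univ _) (hp p hpV),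
    fun V φ hV hφ hp p hpV => absurd (mem_univ _) (hp p hpV),
    fun V φ hV hφ hp p hpV => absurd (mem_univ _) (hp p hpV),
    lp_of hσ₀ hi hi1 hw, mor_of hM, vt_of ha1 had hσ₀ hσ₀c hi hi1 hw hM hn⟩
  refine ⟨α, ρ, (smooth_iff α).2 h1, (smooth_iff ρ).2 h2, (isD_iff α ρ).2 h3,
    (smooth_iff _).2 (((smooth_iff σ₀).1 hσ₀).add h2), (closed_iff _).2 h4, ?_, ?_⟩
  · refine nondeg_of fun z => ?_
    obtain ⟨c, hc, h6, -⟩ := h5 z
    exact ⟨c, hc, h6⟩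
  · intro τ hτ t ht0 ht1
    refine nondeg_of fun z => ?_
    obtain ⟨c, hc, -, h6⟩ := h5 z
    exact ⟨c, hc, h6 τ hτ t ht0 ht1⟩

end

end Pool.Agent.U896.VTP
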