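import Pool.Agent.U896.VM.V4
import Pool.Agent.U896.SC.L1
import Pool.Agent.U896.SC.P3
import Pool.Agent.U896.SC.P4

/-!
# Nearly nondegenerate forms in a prescribed class: regularization in a chart
-/

set_option autoImplicit false

open Set Filter Topology MeasureTheory
open scoped Manifold ContDiff ENNReal

noncomputable section

namespace Pool.Agent.U896.VT

open Pool.Agent.Y501.SY (E Moll S_SM S_HH JJ1)
open Pool.Agent.Y515.SY
open Pool.Agent.U896
open Pool.Agent.U896.SE hiding sq aff_null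
open Pool.Agent.U896.SW
open Pool.Agent.U896.SV
open Pool.Agent.U896.SC
open Pool.Agent.U896.VM

variable {d : ℕ}

/-- on small balls near `p`, the form is close in the mean to a convex set of forms with a uniform
lower bound, which contains the values at the centre of the forms in `T` -/
def VTp (T : Set (E d → Al d 2)) (s : E d → Al d 2) (p : E d) : Prop :=
  ∃ c R : ℝ, 0 < c ∧ 0 < R ∧ ∀ δ : ℝ, 0 < δ → ∃ r : ℝ, 0 < r ∧ ∀ y ∈ Metric.ball p R, ∀ t : ℝ,
    0 < t → t ≤ r → ∃ C : Set (Al d 2), CN c C ∧ (∀ τ ∈ T, τ y ∈ C) ∧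
      ∫⁻ x in Metric.ball y t, ENNReal.ofReal (Metric.infDist (s x) C) ≤
        ENNReal.ofReal (δ * t ^ d)

theorem VTp.congr {T : Set (E d → Al d 2)} {s s' : E d → Al d 2} {p : E d} {R : ℝ} (hR : 0 < R)
    (h : VTp T s p) (hs : ∀ q ∈ Metric.ball p R, s' q = s q) : VTp T s' p := by
  obtain ⟨c, R₁, hc, hR₁, h1⟩ := h
  refine ⟨c, min R₁ (R / 2), hc, lt_min hR₁ (by positivity), fun δ hδ => ?_⟩
  obtain ⟨r, hr, h2⟩ := h1 δ hδ
  refine ⟨min r (R / 2), lt_min hr (by positivity), fun y hy t ht htr => ?_⟩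
  obtain ⟨C, hC, hCT, h3⟩ := h2 y (Metric.ball_subset_ball (min_le_left _ _) hy) t ht
    (htr.trans (min_le_left _ _))
  refine ⟨C, hC, hCT, le_trans (le_of_eq ?_) h3⟩
  have hy2 : dist y p < R / 2 := lt_of_lt_of_le (Metric.mem_ball.1 hy) (min_le_right _ _)
  have ht2 : t ≤ R / 2 := htr.trans (min_le_right _ _)
  refine setLIntegral_congr_fun Metric.isOpen_ball.measurableSet fun x hx => ?_
  have hx' : x ∈ Metric.ball p R := by
    rw [Metric.mem_ball] at hx ⊢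
    have := dist_triangle x y p
    linarith
  simp only [hs x hx']

theorem vt_unif {T : Set (E d → Al d 2)} {s : E d → Al d 2} {Q : Set (E d)} (hQ : IsCompact Q)
    (h : ∀ p ∈ Q, VTp T s p) :
    ∃ c : ℝ, 0 < c ∧ ∀ δ : ℝ, 0 < δ → ∃ r : ℝ, 0 < r ∧ ∀ y ∈ Q, ∀ t : ℝ,
    0 < t → t ≤ r → ∃ C : Set (Al d 2), CN c C ∧ (∀ τ ∈ T, τ y ∈ C) ∧
      ∫⁻ x in Metric.ball y t, ENNReal.ofReal (Metric.infDist (s x) C) ≤
        ENNReal.ofReal (δ * t ^ d) := by
  refine hQ.induction_on (p := fun S => ∃ c : ℝ, 0 < c ∧ ∀ δ : ℝ, 0 < δ → ∃ r : ℝ, 0 < r ∧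
    ∀ y ∈ S, ∀ t : ℝ, 0 < t → t ≤ r → ∃ C : Set (Al d 2), CN c C ∧ (∀ τ ∈ T, τ y ∈ C) ∧
      ∫⁻ x in Metric.ball y t, ENNReal.ofReal (Metric.infDist (s x) C) ≤
        ENNReal.ofReal (δ * t ^ d)) ?_ ?_ ?_ ?_
  · exact ⟨1, one_pos, fun δ hδ => ⟨1, one_pos, fun y hy => absurd hy (notMem_empty y)⟩⟩
  · rintro S T hST ⟨c, hc, h1⟩
    refine ⟨c, hc, fun δ hδ => ?_⟩
    obtain ⟨r, hr, h2⟩ := h1 δ hδ
    exact ⟨r, hr, fun y hy => h2 y (hST hy)⟩
  · rintro S T ⟨c, hc, h1⟩ ⟨c', hc', h1'⟩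
    refine ⟨min c c', lt_min hc hc', fun δ hδ => ?_⟩
    obtain ⟨r, hr, h2⟩ := h1 δ hδ
    obtain ⟨r', hr', h2'⟩ := h1' δ hδ
    refine ⟨min r r', lt_min hr hr', ?_⟩
    rintro y (hy | hy) t ht htr
    · obtain ⟨C, hC, h3⟩ := h2 y hy t ht (htr.trans (min_le_left _ _))
      exact ⟨C, hC.mono (min_le_left _ _), h3⟩
    · obtain ⟨C, hC, h3⟩ := h2' y hy t ht (htr.trans (min_le_right _ _))
      exact ⟨C, hC.mono (min_le_right _ _), h3⟩
  · intro x hx
    obtain ⟨c, R, hc, hR, h1⟩ := h x hx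
    exact ⟨Metric.ball x R, mem_nhdsWithin_of_mem_nhds (Metric.ball_mem_nhds x hR), c, hc, h1⟩

theorem posT {V Q : Set (E d)} {χ : E d → ℝ} {T : Set (E d → Al d 2)}
    {s : E d → Al d 2} {a D₁ A : ℝ} (ha : 0 ≤ a)
    (ha1 : a < 1) (hD₁ : 0 ≤ D₁) (hA0 : 0 < A)
    (hMor : ∀ p ∈ V, Mor a s p) (hVM : ∀ p ∈ V, VTp T s p)
    (hχ : ContDiff ℝ ∞ χ) (hχ0 : ∀ p, 0 ≤ χ p) (hχ1 : ∀ p, χ p ≤ 1)
    (hχD : ∀ p, ‖fderiv ℝ χ p‖ ≤ D₁ * χ p ^ a) (hχc : HasCompactSupport χ)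
    (hQ : IsCompact Q) (hrV : Q ⊆ V) {δ₀ : ℝ} (hδ₀ : 0 < δ₀)
    (hGQ : Metric.thickening δ₀ (tsupport χ) ⊆ Q) (hΦi : Integrable (Q.indicator s)) :
    ∃ ε₀ : ℝ, 0 < ε₀ ∧ ∀ ε : ℝ, 0 < ε → ε ≤ ε₀ → ∀ ρ : E d → ℝ, Moll ε ρ →
      (∀ y, ρ y ≤ A * (ε⁻¹) ^ d) →
      ∀ s' : E d → Al d 2, (∀ p, χ p = 0 → s' p = s p) →
        (∀ p, 0 < χ p → s' p = JJ ρ χ (Q.indicator s) p) →
        (∀ p ∈ V, Mor a s' p) ∧ ∀ p ∈ V, VTp T s' p := by
  have hNQ : tsupport χ ⊆ Q := (Metric.self_subset_thickening hδ₀ _).trans hGQ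
  -- a uniform radius
  obtain ⟨δ₁, Cm, hδ₁, hCm, hmor⟩ := mor_unif hQ fun p hp => hMor p (hrV hp)
  obtain ⟨δ, hδ, hδr, hδm⟩ : ∃ δ : ℝ, 0 < δ ∧ δ ≤ δ₀ ∧ δ ≤ δ₁ :=
    ⟨min δ₀ δ₁, lt_min hδ₀ hδ₁, min_le_left _ _, min_le_right _ _⟩
  obtain ⟨Φ, hΦ⟩ : ∃ Φ : E d → Al d 2, Φ = Q.indicator s := ⟨_, rfl⟩
  rw [← hΦ] at hΦi
  rw [← hΦ]
  have hΦs : ∀ p ∈ Q, Φ p = s p := fun p hp => by rw [hΦ]; exact indicator_of_mem hp s
  -- constants
  obtain ⟨c₀, hc₀, hvm⟩ := vt_unif hQ fun p hp => hVM p (hrV hp)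
  obtain ⟨τ, hτ⟩ : ∃ τ : ℝ, τ = c₀ / 8 := ⟨_, rfl⟩
  have hτ0 : 0 < τ := by rw [hτ]; positivity
  obtain ⟨D, hD⟩ := (hχ.continuous_fderiv (by simp)).bounded_above_of_compact_support
    (hχc.fderiv ℝ)
  have hD0 : 0 ≤ D := (norm_nonneg _).trans (hD 0)
  obtain ⟨θ, hθ, hdet⟩ := det_near (d := d)
  obtain ⟨δ₂, hδ₂⟩ : ∃ δ₂ : ℝ, δ₂ = τ / (A * 6 ^ d) := ⟨_, rfl⟩
  have hδ₂0 : 0 < δ₂ := by rw [hδ₂]; positivity
  have hδ₂1 : A * 6 ^ d * δ₂ ≤ τ := by
    rw [hδ₂, mul_div_cancel₀ _ (by positivity)]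
  obtain ⟨r₂, hr₂, hvm2⟩ := hvm δ₂ hδ₂0
  obtain ⟨F, hF⟩ : ∃ F : ℝ → ℝ, F = fun ε => 3 * (D₁ * (A * Cm) * ε ^ (1 - a)) := ⟨_, rfl⟩
  have hFev : ∀ᶠ ε in 𝓝 (0 : ℝ), F ε < τ := by
    have h1 : ContinuousAt F 0 := by
      rw [hF]
      have e2 := Real.continuousAt_rpow_const (0 : ℝ) (1 - a) (Or.inr (by linarith))
      exact (e2.const_mul (D₁ * (A * Cm))).const_mul 3
    refine h1.eventually_lt_const ?_
    rw [hF]
    have e2 : (0 : ℝ) ^ (1 - a) = 0 := Real.zero_rpow (by linarith)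
    simp only [e2, mul_zero]
    exact hτ0
  have hall : ∀ᶠ ε in 𝓝 (0 : ℝ), (F ε < τ ∧ ε < δ / 8) ∧
      ε < r₂ / 3 ∧ ε < 1 / (2 * (D + 1)) ∧ ε < θ / (D + 1) :=
    (hFev.and (eventually_lt_nhds (by positivity))).and
      ((eventually_lt_nhds (by positivity)).and
        ((eventually_lt_nhds (by positivity)).and (eventually_lt_nhds (by positivity))))
  obtain ⟨ε₀, hε₀, hε₀'⟩ := Metric.eventually_nhds_iff.1 hall
  refine ⟨ε₀ / 2, half_pos hε₀, ?_⟩
  intro ε hε hεle ρ hρ hρA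
  obtain ⟨⟨hFε, hε₁⟩, hε₄, hε₂, hε₃⟩ := hε₀' (y := ε) (by
    rw [Real.dist_eq, sub_zero, abs_of_pos hε]
    linarith)
  rw [lt_div_iff₀ (by positivity)] at hε₂ hε₃
  have hDε2 : D * ε ≤ 1 / 2 := by nlinarith
  have hDε1 : D * ε < 1 := by linarith
  have hDεθ : D * ε ≤ θ := by nlinarith
  have hmove : ∀ p y : E d, ‖y‖ ≤ ε → ‖χ p • y‖ ≤ ε := by
    intro p y hy
    rw [norm_smul, Real.norm_of_nonneg (hχ0 p)]
    calc χ p * ‖y‖ ≤ 1 * ε := mul_le_mul (hχ1 p) hy (norm_nonneg _) zero_le_one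
      _ = ε := one_mul ε
  have hBO : ∀ p₀ : E d, ∀ p ∈ Metric.ball p₀ (δ / 2), ∀ y, ‖y‖ ≤ ε →
      p + χ p • y ∈ Metric.ball p₀ δ := by
    intro p₀ p hp y hy
    rw [Metric.mem_ball, dist_eq_norm] at hp ⊢
    have h1 : p + χ p • y - p₀ = (p - p₀) + χ p • y := by abel
    rw [h1]
    refine (norm_add_le _ _).trans_lt ?_
    have h2 := hmove p y hy
    linarith
  have hball : ∀ p ∈ tsupport χ, ∀ y, ‖y‖ ≤ ε → p + χ p • y ∈ Metric.ball p δ :=
    fun p _ y hy => hBO p p (Metric.mem_ball_self (by positivity)) y hy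
  have hOQ : ∀ p ∈ tsupport χ, Metric.ball p δ ⊆ Q := by
    intro p hp q hq
    apply hGQ
    rw [Metric.mem_thickening_iff]
    exact ⟨p, hp, lt_of_lt_of_le (Metric.mem_ball.1 hq) hδr⟩
  have hin : ∀ p, χ p ≠ 0 → p ∈ tsupport χ := fun p hp => subset_tsupport χ hp
  have hfd : ∀ p, χ p = 0 → fderiv ℝ χ p = 0 := by
    intro p hp
    apply IsLocalMin.fderiv_eq_zero
    refine Eventually.of_forall fun x => ?_
    rw [hp]
    exact hχ0 x
  have hχ00 : ∀ p, 0 < χ p ∨ (χ p = 0 ∧ fderiv ℝ χ p = 0) := by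
    intro p
    rcases (hχ0 p).lt_or_eq with h | h
    · exact Or.inl h
    · exact Or.inr ⟨h.symm, hfd p h.symm⟩
  intro s' hs'0 hs'1
  have hind : ∀ p, Integrable ((Metric.ball p δ).indicator Φ) := fun p =>
    ind_int1 Metric.isOpen_ball hΦi.aestronglyMeasurable.restrict
      ((setLIntegral_le_lintegral _ _).trans_lt (hasFiniteIntegral_iff_enorm.1 hΦi.2))
  have hloc : ∀ p₀ ∈ tsupport χ, ∀ p ∈ Metric.ball p₀ (δ / 2),
      s' p = JJ ρ χ ((Metric.ball p₀ δ).indicator Φ) p := by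
    intro p₀ hp₀ p hp
    rcases hχ00 p with h | h
    · rw [hs'1 p h]
      refine JJ_congr hρ fun y hy => ?_
      have h1 := hBO p₀ p hp y hy
      rw [indicator_of_mem h1]
    · have h1 : p ∈ Metric.ball p₀ δ := Metric.ball_subset_ball (by linarith) hp
      rw [hs'0 p h.1, JJ_eq hρ _ h.1 h.2, indicator_of_mem h1, hΦs p (hOQ p₀ hp₀ h1)]
  refine ⟨?_, ?_⟩
  · intro p hp
    by_cases hpt : p ∈ tsupport χ
    · refine ⟨δ / 8, 8 * (Cm * 2 ^ ((d : ℝ) - a)), by positivity, by positivity,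
        fun q hq t ht htδ => ?_⟩
      have hqd : dist q p < δ / 8 := Metric.mem_ball.1 hq
      have hsub : Metric.ball q t ⊆ Metric.ball p (δ / 2) := by
        intro x hx
        rw [Metric.mem_ball] at hx ⊢
        have := dist_triangle x q p
        linarith
      have h1 : ∫⁻ x in Metric.ball q t, ‖s' x‖ₑ =
          ∫⁻ x in Metric.ball q t, ‖JJ ρ χ ((Metric.ball p δ).indicator Φ) x‖ₑ := by
        refine setLIntegral_congr_fun Metric.isOpen_ball.measurableSet fun x hx => ?_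
        rw [hloc p hpt x (hsub hx)]
      rw [h1]
      refine (JJ_ball hε.le hρ hχ hχ00 hD hDε1 hDεθ hdet
        (hind p) (q := q) (t := t)
        (M := ENNReal.ofReal (Cm * (2 * t) ^ ((d : ℝ) - a))) fun y hy => ?_).trans ?_
      · have h2 : q + χ q • y ∈ Q := by
          apply hOQ p hpt
          rw [Metric.mem_ball, dist_eq_norm] at *
          have h3 : q + χ q • y - p = (q - p) + χ q • y := by abel
          rw [h3]
          refine (norm_add_le _ _).trans_lt ?_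
          have := hmove q y hy
          linarith
        refine le_trans (lintegral_mono fun x => ?_) (hmor _ h2 (2 * t) (by positivity)
          (by linarith))
        by_cases hx : x ∈ Metric.ball p δ
        · rw [indicator_of_mem hx, hΦ]
          by_cases hxQ : x ∈ Q
          · rw [indicator_of_mem hxQ]
          · rw [indicator_of_notMem hxQ, ← ofReal_norm, norm_zero, ENNReal.ofReal_zero]
            exact bot_le
        · rw [indicator_of_notMem hx, ← ofReal_norm, norm_zero, ENNReal.ofReal_zero]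
          exact bot_le
      · have h8 : (8 : ℝ≥0∞) = ENNReal.ofReal 8 := by norm_num
        rw [h8, ← ENNReal.ofReal_mul (by norm_num), Real.mul_rpow (by norm_num) ht.le]
        refine ENNReal.ofReal_le_ofReal (le_of_eq ?_)
        ring
    · have h1 : IsOpen (tsupport χ)ᶜ := (isClosed_tsupport χ).isOpen_compl
      obtain ⟨R', hR', hR''⟩ := Metric.isOpen_iff.1 h1 p hpt
      refine (hMor p hp).congr hR' fun q hq => ?_
      rw [hs'0 q (image_eq_zero_of_notMem_tsupport (hR'' hq))]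
  · intro p hp
    by_cases hpt : p ∈ tsupport χ
    · -- the pointwise estimate
      have hpw : ∀ q ∈ Metric.ball p (δ / 2), ∀ C : Set (Al d 2), Convex ℝ C → C.Nonempty →
          ENNReal.ofReal (Metric.infDist (s' q) (Metric.cthickening τ C)) ≤
          ∫⁻ u, ENNReal.ofReal (ρ u) * ENNReal.ofReal (Metric.infDist (Φ (q + χ q • u)) C) := by
        intro q hq C hC hne
        have hqQ : q ∈ Q := hOQ p hpt (Metric.ball_subset_ball (by linarith) hq)
        by_cases h0 : χ q = 0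
        · rw [hs'0 q h0]
          have h1 : ∀ u : E d, q + χ q • u = q := fun u => by rw [h0, zero_smul, add_zero]
          simp_rw [h1]
          rw [lintegral_mul_const _ hρ.smooth.continuous.measurable.ennreal_ofReal,
            moll_lint hρ, one_mul, hΦs q hqQ]
          refine ENNReal.ofReal_le_ofReal ?_
          exact Metric.infDist_le_infDist_of_subset (Metric.self_subset_cthickening C) hne
        · have hq0 : 0 < χ q := lt_of_le_of_ne (hχ0 q) (Ne.symm h0)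
          rw [hs'1 q hq0]
          have hu0 : 0 < χ q * ε := by positivity
          have hu1 : χ q * ε ≤ ε := by
            calc χ q * ε ≤ 1 * ε := mul_le_mul_of_nonneg_right (hχ1 q) hε.le
              _ = ε := one_mul ε
          refine JJ_dist (κ := ‖fderiv ℝ χ q‖ * ε) hρ hΦi hq0 le_rfl ?_ ?_ hC hne
          · have := mul_le_mul_of_nonneg_right (hD q) hε.le
            linarith
          · have hB : ∫⁻ x in Metric.ball q (χ q * ε), ‖Φ x‖ₑ ≤
                ENNReal.ofReal (Cm * (χ q * ε) ^ ((d : ℝ) - a)) := by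
              refine le_trans (lintegral_mono fun x => ?_) (hmor q hqQ (χ q * ε) hu0 (by linarith))
              rw [hΦ]
              by_cases hx : x ∈ Q
              · rw [indicator_of_mem hx]
              · rw [indicator_of_notMem hx, ← ofReal_norm, norm_zero, ENNReal.ofReal_zero]
                exact bot_le
            have h1 := av_bd hA0.le hρ hρA hΦi hε hq0 (by positivity) hB
            have h2 : A * ((χ q * ε)⁻¹) ^ d * (Cm * (χ q * ε) ^ ((d : ℝ) - a)) =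
                A * Cm * (χ q * ε) ^ (-a) := by
              have h3 : ((χ q * ε)⁻¹) ^ d = (χ q * ε) ^ (-(d : ℝ)) := by
                rw [Real.rpow_neg hu0.le, Real.rpow_natCast, inv_pow]
              have h4 : (χ q * ε) ^ (-(d : ℝ)) * (χ q * ε) ^ ((d : ℝ) - a) =
                  (χ q * ε) ^ (-a) := by
                rw [← Real.rpow_add hu0]
                congr 1
                ring
              rw [h3, ← h4]
              ring
            rw [h2] at h1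
            have h6 : χ q ^ a * ε * (χ q * ε) ^ (-a) = ε ^ (1 - a) := by
              rw [Real.mul_rpow hq0.le hε.le, Real.rpow_neg hq0.le, Real.rpow_sub hε,
                Real.rpow_one, Real.rpow_neg hε.le]
              have h7 : χ q ^ a ≠ 0 := (Real.rpow_pos_of_pos hq0 a).ne'
              have h8 : ε ^ a ≠ 0 := (Real.rpow_pos_of_pos hε a).ne'
              field_simp
            have h12 : F ε < τ := hFε
            rw [hF] at h12
            have h13 := hχD q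
            calc 3 * (‖fderiv ℝ χ q‖ * ε) * (∫ y, ρ y * ‖Φ (q + χ q • y)‖)
                ≤ 3 * (D₁ * χ q ^ a * ε) * (A * Cm * (χ q * ε) ^ (-a)) := by
                  have h14 : 0 ≤ ∫ y, ρ y * ‖Φ (q + χ q • y)‖ :=
                    integral_nonneg fun y => mul_nonneg (hρ.nonneg y) (norm_nonneg _)
                  gcongr
              _ = 3 * (D₁ * (A * Cm) * (χ q ^ a * ε * (χ q * ε) ^ (-a))) := by ring
              _ = 3 * (D₁ * (A * Cm) * ε ^ (1 - a)) := by rw [h6]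
              _ ≤ τ := h12.le
      refine ⟨c₀ / 2, δ / 8, by positivity, by positivity, fun δ' hδ' => ?_⟩
      obtain ⟨r₃, hr₃, hvm3⟩ := hvm (δ' / (2 * 3 ^ d)) (by positivity)
      refine ⟨min (r₃ / 3) (δ / 24), lt_min (by positivity) (by positivity),
        fun y hy t ht htr => ?_⟩
      have hyd : dist y p < δ / 8 := Metric.mem_ball.1 hy
      have ht3 : t ≤ r₃ / 3 := htr.trans (min_le_left _ _)
      have htδ : t ≤ δ / 24 := htr.trans (min_le_right _ _)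
      have hyQ : y ∈ Q := hOQ p hpt (Metric.ball_subset_ball (by linarith) hy)
      have hsub : ∀ u : ℝ, u ≤ 3 * δ / 8 → Metric.ball y u ⊆ Metric.ball p (δ / 2) := by
        intro u hu x hx
        rw [Metric.mem_ball] at hx ⊢
        have := dist_triangle x y p
        linarith
      have hΦeq : ∀ (u : ℝ) (C : Set (Al d 2)), u ≤ 3 * δ / 8 →
          ∫⁻ x in Metric.ball y u, ENNReal.ofReal (Metric.infDist (Φ x) C) =
          ∫⁻ x in Metric.ball y u, ENNReal.ofReal (Metric.infDist (s x) C) := by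
        intro u C hu
        refine setLIntegral_congr_fun Metric.isOpen_ball.measurableSet fun x hx => ?_
        have h1 : x ∈ Q := hOQ p hpt (Metric.ball_subset_ball (by linarith) (hsub u hu hx))
        simp only [hΦs x h1]
      rcases le_or_gt t (χ y * ε) with hcase | hcase
      · have hy0 : 0 < χ y := by
          by_contra h
          have h1 : χ y * ε ≤ 0 := mul_nonpos_of_nonpos_of_nonneg (not_lt.1 h) hε.le
          linarith
        have hyε : χ y * ε ≤ ε := by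
          calc χ y * ε ≤ 1 * ε := mul_le_mul_of_nonneg_right (hχ1 y) hε.le
            _ = ε := one_mul ε
        obtain ⟨C, hC, hCT, h1⟩ := hvm2 y hyQ (3 * (χ y * ε)) (by positivity) (by linarith)
        have h2 := case1 (s' := s') (Φ := Φ) hA0.le hρ hρA hε hχ hD hDε2 hy0 hcase (C := C)
          (τ := τ) (δ₂ := δ₂)
          (fun q hq => hpw q (hsub t (by linarith) hq) C hC.conv hC.ne)
          (by rw [hΦeq _ C (by linarith)]; exact h1) hδ₂1 hδ₂0.le hτ0.le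
        refine ⟨Metric.cthickening τ (Metric.cthickening τ C),
          ((hC.cth hτ0).cth hτ0).mono (by rw [hτ]; linarith),
          fun ζ hζ => Metric.self_subset_cthickening _ (Metric.self_subset_cthickening _ (hCT ζ hζ)),
          ?_⟩
        have h3 : ∫⁻ x in Metric.ball y t, ENNReal.ofReal (Metric.infDist (s' x)
            (Metric.cthickening τ (Metric.cthickening τ C))) = 0 := by
          rw [setLIntegral_congr_fun (g := fun _ => 0) Metric.isOpen_ball.measurableSet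
            fun x hx => ?_]
          · simp
          · have h4 := infDist_cth0 (hC.cth hτ0).ne (h2 x hx)
            simp only [h4, ENNReal.ofReal_zero]
        rw [h3]
        exact bot_le
      · obtain ⟨C, hC, hCT, h1⟩ := hvm3 y hyQ (3 * t) (by positivity) (by linarith)
        have h2 := case2 (s' := s') (Φ := Φ) hρ hε hχ hχ00 hD hDε2 hDεθ hdet hΦi hcase (C := C)
          (τ := τ) (fun q hq => hpw q (hsub t (by linarith) hq) C hC.conv hC.ne)
        rw [hΦeq _ C (by linarith)] at h2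
        refine ⟨Metric.cthickening τ C, (hC.cth hτ0).mono (by rw [hτ]; linarith),
          fun ζ hζ => Metric.self_subset_cthickening _ (hCT ζ hζ), h2.trans ?_⟩
        have h4 : (2 : ℝ≥0∞) = ENNReal.ofReal 2 := by norm_num
        calc 2 * ∫⁻ x in Metric.ball y (3 * t), ENNReal.ofReal (Metric.infDist (s x) C)
            ≤ 2 * ENNReal.ofReal (δ' / (2 * 3 ^ d) * (3 * t) ^ d) := by gcongr
          _ = ENNReal.ofReal (δ' * t ^ d) := by
              rw [h4, ← ENNReal.ofReal_mul (by norm_num)]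
              congr 1
              rw [mul_pow]
              field_simp
    · have h1 : IsOpen (tsupport χ)ᶜ := (isClosed_tsupport χ).isOpen_compl
      obtain ⟨R', hR', hR''⟩ := Metric.isOpen_iff.1 h1 p hpt
      refine (hVM p hp).congr hR' fun q hq => ?_
      rw [hs'0 q (image_eq_zero_of_notMem_tsupport (hR'' hq))]

theorem regCT (hSM : S_SM) (hHH : S_HH) {V k : Set (E d)} {χ : E d → ℝ}
    {T : Set (E d → Al d 2)} {s₀ s : E d → Al d 2} {b : E d → Al d 1} {a D₁ : ℝ}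
    (ha : 0 ≤ a) (ha1 : a < 1) (hD₁ : 0 ≤ D₁)
    (hV : IsOpen V) (hVk : IsOpen (V \ k))
    (hLP : ∀ p ∈ V, LPp b (fun q => s q - s₀ q) p) (hMor : ∀ p ∈ V, Mor a s p)
    (hVM : ∀ p ∈ V, VTp T s p)
    (hχ : ContDiff ℝ ∞ χ) (hχ0 : ∀ p, 0 ≤ χ p) (hχ1 : ∀ p, χ p ≤ 1)
    (hχD : ∀ p, ‖fderiv ℝ χ p‖ ≤ D₁ * χ p ^ a) (hχc : HasCompactSupport χ)
    (hχV : tsupport χ ⊆ V)
    (hs₀ : ContDiffOn ℝ ∞ s₀ V) (hs₀c : ∀ p ∈ V, extDeriv s₀ p = 0)
    (hb : ContDiffOn ℝ ∞ b (V \ k)) (hs : ContDiffOn ℝ ∞ s (V \ k))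
    (hbs : ∀ p ∈ V \ k, extDeriv b p = s p - s₀ p) :
    ∃ (b' : E d → Al d 1) (s' : E d → Al d 2),
      ContDiffOn ℝ ∞ b' (V \ (k ∩ {p | χ p = 0})) ∧
      ContDiffOn ℝ ∞ s' (V \ (k ∩ {p | χ p = 0})) ∧
      (∀ p ∈ V \ (k ∩ {p | χ p = 0}), extDeriv b' p = s' p - s₀ p) ∧
      (∀ p, χ p = 0 → b' p = b p) ∧ (∀ p, χ p = 0 → s' p = s p) ∧
      (∀ p ∈ V, LPp b' (fun q => s' q - s₀ q) p) ∧ (∀ p ∈ V, Mor a s' p) ∧
      ∀ p ∈ V, VTp T s' p := by
  obtain ⟨r, hr, hrV⟩ := IsCompact.exists_cthickening_subset_open hχc hV hχV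
  have hQ : IsCompact (Metric.cthickening r (tsupport χ)) := IsCompact.cthickening hχc
  have hGQ : Metric.thickening r (tsupport χ) ⊆ Metric.cthickening r (tsupport χ) :=
    Metric.thickening_subset_cthickening _ _
  obtain ⟨A, hA0, hmoll⟩ := moll_bd (d := d)
  obtain ⟨ε₁, hε₁, h1⟩ := pairC hSM hHH hV hVk hLP hχ hχ0 hχc hχV hs₀ hs₀c hb hs hbs hrV hr hGQ
  obtain ⟨ε₂, hε₂, h2⟩ := posT ha ha1 hD₁ hA0 hMor hVM hχ hχ0 hχ1 hχD hχc
    hQ hrV hr hGQ (LPp.intOn hLP hs₀ hQ hrV)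
  obtain ⟨ρ, hρ, hρA⟩ := hmoll (min ε₁ ε₂) (lt_min hε₁ hε₂)
  obtain ⟨b', s', g1, g2, g3, g4, g5, g6, g7⟩ := h1 _ (lt_min hε₁ hε₂) (min_le_left _ _) ρ hρ
  obtain ⟨k1, k2⟩ := h2 _ (lt_min hε₁ hε₂) (min_le_right _ _) ρ hρ hρA s' g2 g3
  exact ⟨b', s', g4, g5, g6, g1, g2, g7, k1, k2⟩

end Pool.Agent.U896.VT
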