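import Pool.Agent.U896.VT.T2
import Pool.Agent.U896.SC.L2
import Pool.Agent.U896.SC.P8

/-!
# Nearly nondegenerate forms in a prescribed class: one step of the regularization
-/

set_option autoImplicit false

open Set Filter Topology MeasureTheory
open scoped Manifold ContDiff ENNReal

noncomputable section

namespace Pool.Agent.U896.VT

open Pool.Agent.Y501.SY
open Pool.Agent.U896.SW (NullX pb_val)
open Pool.Agent.U896.SV (Mor bump_pow)
open Pool.Agent.U896.SC

section

variable {d : ℕ} {X : Type} [TopologicalSpace X] [ChartedSpace (E d) X]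

/-- nearly nondegenerate forms `σ = σ₀ + dβ` of Morrey growth, which are smooth on the complement of
`K`, and limits of smooth pairs -/
structure UCT (𝒯 : Set (Form d X 2)) (a : ℝ) (σ₀ : Form d X 2) (β : Form d X 1)
    (σ : Form d X 2) (K : Set X) : Prop where
  smβ : SmoothOff β K
  smooth : SmoothOff σ K
  isD : IsDOff β (σ - σ₀) K
  lp : ∀ z : X, ∀ p ∈ (chartAt (E d) z).target,
    LPp (pb (chartAt (E d) z).symm β) (pb (chartAt (E d) z).symm (σ - σ₀)) p
  mor : ∀ z : X, ∀ p ∈ (chartAt (E d) z).target, Mor a (pb (chartAt (E d) z).symm σ) p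
  vt : ∀ z : X, ∀ p ∈ (chartAt (E d) z).target, VTp (chT 𝒯 z) (pb (chartAt (E d) z).symm σ) p

theorem stepCT {a : ℝ} (ha : 0 ≤ a) (ha1 : a < 1) (had : a ≤ d)
    (hSm : S_SM) (hHH : S_HH) (hPa : S_PATCH2) (hPp : S_PATCHP)
    [IsManifold (𝓡 d) ∞ X] [T2Space X] {𝒯 : Set (Form d X 2)}
    {σ₀ : Form d X 2} (hσ₀ : IsSmooth σ₀) (hσ₀c : IsClosedForm σ₀) (z : X) :
    ∃ W : Set X, IsOpen W ∧ z ∈ W ∧ ∀ (K : Set X) (β : Form d X 1) (w : Form d X 2),
      IsClosed K → UCT 𝒯 a σ₀ β w K →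
      ∃ (β' : Form d X 1) (w' : Form d X 2), UCT 𝒯 a σ₀ β' w' (K \ W) := by
  -- the ball
  obtain ⟨r, hr, hball⟩ : ∃ r : ℝ, 0 < r ∧
      Metric.closedBall (chartAt (E d) z z) r ⊆ (chartAt (E d) z).target := by
    obtain ⟨r, hr, h6⟩ := Metric.nhds_basis_closedBall.mem_iff.1
      ((chartAt (E d) z).open_target.mem_nhds (mem_chart_target (E d) z))
    exact ⟨r, hr, h6⟩
  obtain ⟨p₀, hp₀⟩ : ∃ p₀, p₀ = chartAt (E d) z z := ⟨_, rfl⟩
  rw [← hp₀] at hball
  obtain ⟨e, he⟩ : ∃ e, e = chartAt (E d) z := ⟨_, rfl⟩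
  have hzs : z ∈ e.source := by rw [he]; exact mem_chart_source (E d) z
  have hez : e z = p₀ := by rw [he, hp₀]
  have hVt : Metric.closedBall p₀ r ⊆ e.target := fun p hp => by
    rw [he]; exact hball hp
  have hV : Metric.ball p₀ r ⊆ e.target := Metric.ball_subset_closedBall.trans hVt
  have hN : IsCompact (Metric.closedBall p₀ r) := isCompact_closedBall p₀ r
  have hW : IsOpen (e.source ∩ e ⁻¹' Metric.ball p₀ (r / 2)) :=
    e.isOpen_inter_preimage Metric.isOpen_ball
  have hO : IsOpen (e.source ∩ e ⁻¹' Metric.ball p₀ r) :=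
    e.isOpen_inter_preimage Metric.isOpen_ball
  obtain ⟨W, hWd⟩ : ∃ W, W = e.source ∩ e ⁻¹' Metric.ball p₀ (r / 2) := ⟨_, rfl⟩
  obtain ⟨O, hOd⟩ : ∃ O, O = e.source ∩ e ⁻¹' Metric.ball p₀ r := ⟨_, rfl⟩
  rw [← hWd] at hW
  rw [← hOd] at hO
  have heO : e '' O = Metric.ball p₀ r := by
    apply Subset.antisymm
    · rintro _ ⟨x, hx, rfl⟩
      rw [hOd] at hx
      exact hx.2
    · intro p hp
      refine ⟨e.symm p, ?_, e.right_inv (hV hp)⟩
      rw [hOd]
      refine ⟨e.map_target (hV hp), ?_⟩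
      rw [mem_preimage, e.right_inv (hV hp)]
      exact hp
  have hOs : O ⊆ e.source := by rw [hOd]; exact inter_subset_left
  have hWO : W ⊆ O := by
    rw [hWd, hOd]
    exact inter_subset_inter_right _ (preimage_mono (Metric.ball_subset_ball (by linarith)))
  have hWs : ∀ p ∈ Metric.ball p₀ r, e.symm p ∈ W ↔ p ∈ Metric.ball p₀ (r / 2) := by
    intro p hp
    rw [hWd]
    constructor
    · rintro ⟨_, h⟩
      rwa [mem_preimage, e.right_inv (hV hp)] at h
    · intro h
      refine ⟨e.map_target (hV hp), ?_⟩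
      rwa [mem_preimage, e.right_inv (hV hp)]
  -- the cut-off function
  obtain ⟨φ, hφ⟩ : ∃ φ : ContDiffBump p₀, φ.rOut = r / 2 :=
    ⟨⟨r / 4, r / 2, by positivity, by linarith⟩, rfl⟩
  obtain ⟨χ, D₁, hD₁, hχs, hχnn, hχ1, hχcs, hχt, hχ0, hχD⟩ := bump_pow φ ha ha1
  rw [hφ] at hχt hχ0
  have htV : Metric.closedBall p₀ (r / 2) ⊆ Metric.ball p₀ r :=
    Metric.closedBall_subset_ball (by linarith)
  refine ⟨W, hW, ?_, ?_⟩
  · rw [hWd]
    refine ⟨hzs, ?_⟩
    rw [mem_preimage, hez]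
    exact Metric.mem_ball_self (by linarith)
  intro K β w hK hUT
  obtain ⟨k, hk⟩ : ∃ k, k = Metric.ball p₀ r ∩ e.symm ⁻¹' K := ⟨_, rfl⟩
  have hVk : Metric.ball p₀ r \ k = Metric.ball p₀ r ∩ e.symm ⁻¹' Kᶜ := by
    rw [hk]
    ext p
    simp only [Set.mem_sdiff, mem_inter_iff, mem_preimage, mem_compl_iff]
    tauto
  have hVko : IsOpen (Metric.ball p₀ r \ k) := by
    rw [hVk]
    have h1 : IsOpen (e.target ∩ e.symm ⁻¹' Kᶜ) := e.isOpen_inter_preimage_symm hK.isOpen_compl
    have h2 : Metric.ball p₀ r ∩ e.symm ⁻¹' Kᶜ = Metric.ball p₀ r ∩ (e.target ∩ e.symm ⁻¹' Kᶜ) := by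
      rw [← inter_assoc, inter_eq_left.2 hV]
    rw [h2]
    exact Metric.isOpen_ball.inter h1
  have hsK : ∀ p ∈ Metric.ball p₀ r \ k, e.symm p ∉ K := by
    intro p hp
    rw [hVk] at hp
    exact hp.2
  have hsymm : ContMDiffOn (𝓡 d) (𝓡 d) ∞ (chartAt (E d) z).symm (Metric.ball p₀ r) :=
    contMDiffOn_chart_symm.mono (by rw [← he]; exact hV)
  have hs1 : ContDiffOn ℝ ∞ (pb (chartAt (E d) z).symm w) (Metric.ball p₀ r \ k) :=
    hUT.smooth _ _ hVko (hsymm.mono sdiff_subset) (by rw [← he]; exact hsK)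
  have hb1 : ContDiffOn ℝ ∞ (pb (chartAt (E d) z).symm β) (Metric.ball p₀ r \ k) :=
    hUT.smβ _ _ hVko (hsymm.mono sdiff_subset) (by rw [← he]; exact hsK)
  have hs2 : ∀ p ∈ Metric.ball p₀ r \ k, extDeriv (pb (chartAt (E d) z).symm β) p =
      pb (chartAt (E d) z).symm w p - pb (chartAt (E d) z).symm σ₀ p := fun p hp =>
    hUT.isD _ _ hVko (hsymm.mono sdiff_subset) (by rw [← he]; exact hsK) p hp
  have hs₀ : ContDiffOn ℝ ∞ (pb (chartAt (E d) z).symm σ₀) (Metric.ball p₀ r) :=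
    hσ₀ _ _ Metric.isOpen_ball hsymm
  have hs₀c : ∀ p ∈ Metric.ball p₀ r, extDeriv (pb (chartAt (E d) z).symm σ₀) p = 0 := by
    intro p hp
    rw [hσ₀c _ _ Metric.isOpen_ball hsymm p hp, pb_zero]
    rfl
  obtain ⟨b', s', g1, g2, g3, g4, g4', g6, g7, g8⟩ := regCT hSm hHH
    (V := Metric.ball p₀ r) (k := k) (T := chT 𝒯 z)
    (χ := χ) (s₀ := pb (chartAt (E d) z).symm σ₀) (s := pb (chartAt (E d) z).symm w)
    (b := pb (chartAt (E d) z).symm β) (a := a) (D₁ := D₁) ha ha1 hD₁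
    Metric.isOpen_ball hVko (fun p hp => hUT.lp z p (by rw [← he]; exact hV hp))
    (fun p hp => hUT.mor z p (by rw [← he]; exact hV hp))
    (fun p hp => hUT.vt z p (by rw [← he]; exact hV hp))
    hχs hχnn hχ1 hχD hχcs (by rw [hχt]; exact htV) hs₀ hs₀c hb1 hs1 hs2
  obtain ⟨β₁, w₁, f1, f2, f3, hlc, hout, f4⟩ := patchC (z := z) hPa hPp hσ₀ hσ₀c hr
    (by rw [← hp₀]; exact hball)
    (χ := χ) (by rw [← hp₀]; exact hχ0) hK hUT.smβ hUT.smooth hUT.isD hUT.lp
    (b' := b') (s' := s')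
    (by rw [← hp₀, ← he, ← hk]; exact g1) (by rw [← hp₀, ← he, ← hk]; exact g2)
    (by rw [← hp₀, ← he, ← hk]; rw [← he] at g3; exact g3)
    g4 g4' (by rw [← hp₀]; exact g6) (W := W) (O := O)
    (by rw [← hp₀, ← he]; exact hWd) (by rw [← hp₀, ← he]; exact hOd)
  rw [← hp₀] at f4
  have hmr : ∀ z₂ : X, ∀ p ∈ (chartAt (E d) z₂).target,
      Mor a (pb (chartAt (E d) z₂).symm w₁) p := by
    intro z₂ p hp
    by_cases hx : (chartAt (E d) z₂).symm p ∈ O
    · have hxb : e ((chartAt (E d) z₂).symm p) ∈ Metric.ball p₀ r := by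
        rw [← heO]
        exact ⟨_, hx, rfl⟩
      have h1 : Mor a (pb (chartAt (E d) z).symm w₁)
          (e ((chartAt (E d) z₂).symm p)) := by
        obtain ⟨R', hR', hRb⟩ := Metric.isOpen_iff.1 Metric.isOpen_ball _ hxb
        refine (g7 _ hxb).congr hR' fun q hq => ?_
        exact f4 q (hRb hq)
      refine Mor.trans had (p₁ := e ((chartAt (E d) z₂).symm p)) ?_ hp ?_ h1
      · rw [← he]
        exact hV hxb
      · rw [← he]
        exact e.left_inv (hOs hx)
    · have hcl : IsClosed (e.symm '' Metric.closedBall p₀ (r / 2)) :=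
        ((isCompact_closedBall p₀ (r / 2)).image_of_continuousOn
          (e.continuousOn_symm.mono (htV.trans hV))).isClosed
      have hsub : e.symm '' Metric.closedBall p₀ (r / 2) ⊆ O := by
        rintro _ ⟨q, hq, rfl⟩
        rw [hOd]
        refine ⟨e.map_target (hV (htV hq)), ?_⟩
        rw [mem_preimage, e.right_inv (hV (htV hq))]
        exact htV hq
      have h1 : ∀ᶠ q in 𝓝 p, (chartAt (E d) z₂).symm q ∉ e.symm '' Metric.closedBall p₀ (r / 2) := by
        have h2 : ContinuousAt (chartAt (E d) z₂).symm p := (chartAt (E d) z₂).continuousAt_symm hp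
        exact h2.eventually (hcl.isOpen_compl.mem_nhds fun h => hx (hsub h))
      obtain ⟨R', hR', hRb⟩ := Metric.eventually_nhds_iff_ball.1 h1
      refine (hUT.mor z₂ p hp).congr hR' fun q hq => ?_
      have hq' := hRb q hq
      apply pb_val
      by_cases hqO : (chartAt (E d) z₂).symm q ∈ O
      · have hqb : e ((chartAt (E d) z₂).symm q) ∈ Metric.ball p₀ r := by
          rw [← heO]
          exact ⟨_, hqO, rfl⟩
        have h3 : χ (e ((chartAt (E d) z₂).symm q)) = 0 := by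
          rw [hχ0]
          intro h
          apply hq'
          exact ⟨_, Metric.ball_subset_closedBall h, e.left_inv (hOs hqO)⟩
        have h4 := pb_inj2 w₁ w (z := z) (p := e ((chartAt (E d) z₂).symm q))
          (by rw [← he]; exact hV hqb) (by rw [f4 _ hqb, g4' _ h3])
        rw [← he, e.left_inv (hOs hqO)] at h4
        exact h4
      · exact hout _ hqO
  have hlcn : ∀ z₂ : X, ∀ p ∈ (chartAt (E d) z₂).target,
      Pool.Agent.U896.SW.LCn (pb (chartAt (E d) z₂).symm w₁) p := by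
    intro z₂ p hp
    obtain ⟨h1, h2⟩ := closed_chart hσ₀ hσ₀c z₂
    exact LPp.toLCn (chartAt (E d) z₂).open_target hp (hlc z₂ p hp) h1 h2
  have hvr : ∀ z₂ : X, ∀ p ∈ (chartAt (E d) z₂).target,
      VTp (chT 𝒯 z₂) (pb (chartAt (E d) z₂).symm w₁) p := by
    intro z₂ p hp
    by_cases hx : (chartAt (E d) z₂).symm p ∈ O
    · have hxb : e ((chartAt (E d) z₂).symm p) ∈ Metric.ball p₀ r := by
        rw [← heO]
        exact ⟨_, hx, rfl⟩
      have h1 : VTp (chT 𝒯 z) (pb (chartAt (E d) z).symm w₁)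
          (e ((chartAt (E d) z₂).symm p)) := by
        obtain ⟨R', hR', hRb⟩ := Metric.isOpen_iff.1 Metric.isOpen_ball _ hxb
        refine (g8 _ hxb).congr hR' fun q hq => ?_
        exact f4 q (hRb hq)
      refine VTp.trans ha1 had (p₁ := e ((chartAt (E d) z₂).symm p)) ?_ hp ?_ (hlcn z _ ?_)
        (hmr z _ ?_) h1
      · rw [← he]
        exact hV hxb
      · rw [← he]
        exact e.left_inv (hOs hx)
      · rw [← he]
        exact hV hxb
      · rw [← he]
        exact hV hxb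
    · have hcl : IsClosed (e.symm '' Metric.closedBall p₀ (r / 2)) :=
        ((isCompact_closedBall p₀ (r / 2)).image_of_continuousOn
          (e.continuousOn_symm.mono (htV.trans hV))).isClosed
      have hsub : e.symm '' Metric.closedBall p₀ (r / 2) ⊆ O := by
        rintro _ ⟨q, hq, rfl⟩
        rw [hOd]
        refine ⟨e.map_target (hV (htV hq)), ?_⟩
        rw [mem_preimage, e.right_inv (hV (htV hq))]
        exact htV hq
      have h1 : ∀ᶠ q in 𝓝 p, (chartAt (E d) z₂).symm q ∉ e.symm '' Metric.closedBall p₀ (r / 2) := by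
        have h2 : ContinuousAt (chartAt (E d) z₂).symm p := (chartAt (E d) z₂).continuousAt_symm hp
        exact h2.eventually (hcl.isOpen_compl.mem_nhds fun h => hx (hsub h))
      obtain ⟨R', hR', hRb⟩ := Metric.eventually_nhds_iff_ball.1 h1
      refine (hUT.vt z₂ p hp).congr hR' fun q hq => ?_
      have hq' := hRb q hq
      apply pb_val
      by_cases hqO : (chartAt (E d) z₂).symm q ∈ O
      · have hqb : e ((chartAt (E d) z₂).symm q) ∈ Metric.ball p₀ r := by
          rw [← heO]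
          exact ⟨_, hqO, rfl⟩
        have h3 : χ (e ((chartAt (E d) z₂).symm q)) = 0 := by
          rw [hχ0]
          intro h
          apply hq'
          exact ⟨_, Metric.ball_subset_closedBall h, e.left_inv (hOs hqO)⟩
        have h4 := pb_inj2 w₁ w (z := z) (p := e ((chartAt (E d) z₂).symm q))
          (by rw [← he]; exact hV hqb) (by rw [f4 _ hqb, g4' _ h3])
        rw [← he, e.left_inv (hOs hqO)] at h4
        exact h4
      · exact hout _ hqO
  exact ⟨β₁, w₁, ⟨f1, f2, f3, hlc, hmr, hvr⟩⟩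

end

end Pool.Agent.U896.VT
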