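import Pool.Agent.U896.VT.T3

/-!
# Nearly nondegenerate forms in a prescribed class: the main theorem
-/

set_option autoImplicit false

open Set Filter Topology MeasureTheory
open scoped Manifold ContDiff ENNReal

noncomputable section

namespace Pool.Agent.U896.VT

open Pool.Agent.Y501.SY
open Pool.Agent.U896.SC
open Pool.Agent.U896.VM
open Pool.Agent.U896.SV (Mor)

section

variable {d : ℕ}

/-- smooth nearly nondegenerate forms are nondegenerate -/
theorem vt_smooth {T : Set (E d → (E d) [⋀^Fin 2]→L[ℝ] ℝ)} {s : E d → (E d) [⋀^Fin 2]→L[ℝ] ℝ}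
    {p : E d} (hs : ContinuousAt s p) (h : VTp T s p) :
    ∃ c : ℝ, 0 < c ∧ NDg c (s p) ∧ ∀ τ ∈ T, ∀ θ : ℝ, 0 ≤ θ → θ ≤ 1 →
      NDg c ((1 - θ) • τ p + θ • s p) := by
  obtain ⟨c, R, hc, hR, h1⟩ := h
  obtain ⟨B, hB⟩ : ∃ B, B = (volume (Metric.ball (0 : E d) 1)).toReal := ⟨_, rfl⟩
  have hB0 : 0 < B := by
    rw [hB]
    exact ENNReal.toReal_pos (Metric.measure_ball_pos volume _ one_pos).ne'
      measure_ball_lt_top.ne
  obtain ⟨r, hr, h2⟩ := h1 (c / 8 * B) (by positivity)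
  obtain ⟨r', hr', h3⟩ := Metric.continuousAt_iff.1 hs (c / 8) (by positivity)
  obtain ⟨t, ht, htr, htr'⟩ : ∃ t : ℝ, 0 < t ∧ t ≤ r ∧ t ≤ r' :=
    ⟨min r r', lt_min hr hr', min_le_left _ _, min_le_right _ _⟩
  obtain ⟨C, hC, hCT, h4⟩ := h2 p (Metric.mem_ball_self hR) t ht htr
  have h5 : Metric.infDist (s p) C < c / 2 := by
    by_contra h
    rw [not_lt] at h
    have h6 : ∀ x ∈ Metric.ball p t, ENNReal.ofReal (3 * c / 8) ≤
        ENNReal.ofReal (Metric.infDist (s x) C) := by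
      intro x hx
      refine ENNReal.ofReal_le_ofReal ?_
      have h7 := h3 (Metric.ball_subset_ball htr' hx)
      have h8 := Metric.infDist_le_infDist_add_dist (s := C) (x := s p) (y := s x)
      rw [dist_comm] at h8
      linarith
    have h7 : ENNReal.ofReal (3 * c / 8) * volume (Metric.ball p t) ≤
        ENNReal.ofReal (c / 8 * B * t ^ d) := by
      refine le_trans ?_ h4
      rw [← setLIntegral_const]
      exact setLIntegral_mono' Metric.isOpen_ball.measurableSet h6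
    rw [Measure.addHaar_ball_of_pos _ _ ht, finrank_euclideanSpace_fin,
      ← ENNReal.ofReal_toReal (measure_ball_lt_top (μ := volume) (x := (0 : E d)) (r := 1)).ne,
      ← hB, ← ENNReal.ofReal_mul (by positivity), ← ENNReal.ofReal_mul (by positivity),
      ENNReal.ofReal_le_ofReal_iff (by positivity)] at h7
    have h8 : 0 < t ^ d * B := by positivity
    nlinarith
  obtain ⟨η, hη, h6⟩ := (Metric.infDist_lt_iff hC.ne).1 h5
  rw [dist_eq_norm] at h6
  refine ⟨c / 2, by positivity, ?_, ?_⟩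
  · exact ((hC.nd η hη).near h6.le).mono (by linarith)
  · intro τ hτ θ hθ0 hθ1
    have h7 : (1 - θ) • τ p + θ • η ∈ C := hC.conv (hCT τ hτ) hη (by linarith) hθ0 (by ring)
    refine ((hC.nd _ h7).near (τ := c / 2) ?_).mono (by linarith)
    have h8 : (1 - θ) • τ p + θ • s p - ((1 - θ) • τ p + θ • η) = θ • (s p - η) := by
      have h9 : θ • (s p - η) = θ • s p - θ • η := smul_sub _ _ _
      rw [h9]
      abel
    rw [h8, norm_smul, Real.norm_of_nonneg hθ0]
    calc θ * ‖s p - η‖ ≤ 1 * (c / 2) := mul_le_mul hθ1 h6.le (norm_nonneg _) zero_le_one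
      _ = c / 2 := one_mul _

end

section

variable {d : ℕ} {X : Type} [TopologicalSpace X] [ChartedSpace (E d) X] [IsManifold (𝓡 d) ∞ X]

theorem mainCT {a : ℝ} (ha : 0 ≤ a) (ha1 : a < 1) (had : a ≤ d)
    (hSm : S_SM) (hHH : S_HH) (hPa : S_PATCH2) (hPp : S_PATCHP) [CompactSpace X] [T2Space X]
    {𝒯 : Set (Form d X 2)} {K : Set X} (hK : IsClosed K)
    {σ₀ : Form d X 2} (hσ₀ : IsSmooth σ₀) (hσ₀c : IsClosedForm σ₀) {β : Form d X 1}
    {σ : Form d X 2} (hσ : UCT 𝒯 a σ₀ β σ K) :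
    ∃ (α : Form d X 1) (ρ : Form d X 2), IsSmooth α ∧ IsSmooth ρ ∧ IsD α ρ ∧
      IsClosedForm (σ₀ + ρ) ∧
      (∀ z : X, ∃ c : ℝ, 0 < c ∧ NDg c (pb (chartAt (E d) z).symm (σ₀ + ρ) (chartAt (E d) z z)) ∧
        ∀ τ ∈ 𝒯, ∀ θ : ℝ, 0 ≤ θ → θ ≤ 1 →
        NDg c (pb (chartAt (E d) z).symm ((1 - θ) • τ + θ • (σ₀ + ρ)) (chartAt (E d) z z))) := by
  classical
  choose W hWo hWz hW using fun z : X =>
    stepCT (X := X) ha ha1 had hSm hHH hPa hPp (𝒯 := 𝒯) hσ₀ hσ₀c z
  have hfin : ∀ t : Finset X, ∃ (β' : Form d X 1) (w : Form d X 2),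
      UCT 𝒯 a σ₀ β' w (K \ ⋃ z ∈ t, W z) := by
    intro t
    induction t using Finset.induction_on with
    | empty =>
      have : K \ ⋃ z ∈ (∅ : Finset X), W z = K := by simp
      refine ⟨β, σ, ?_⟩
      rw [this]
      exact hσ
    | insert y t _ ih =>
      obtain ⟨β', w, hw⟩ := ih
      have hop : IsOpen (⋃ z ∈ t, W z) := isOpen_biUnion fun z _ => hWo z
      have hcl : IsClosed (K \ ⋃ z ∈ t, W z) := by
        rw [sdiff_eq]
        exact hK.inter hop.isClosed_compl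
      obtain ⟨β'', w', hw'⟩ := hW y _ β' w hcl hw
      have h1 : ∀ S : Set X, S \ ⋃ z ∈ insert y t, W z = (S \ ⋃ z ∈ t, W z) \ W y := by
        intro S
        rw [Finset.set_biUnion_insert, union_comm, sdiff_sdiff_left]
        rfl
      refine ⟨β'', w', ?_⟩
      rw [h1]
      exact hw'
  obtain ⟨t, -, htc⟩ := hK.isCompact.elim_nhds_subcover W
    (fun z _ => (hWo z).mem_nhds (hWz z))
  obtain ⟨β', w, hw⟩ := hfin t
  have hempty : K \ ⋃ z ∈ t, W z = ∅ := by
    rw [sdiff_eq_empty]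
    exact htc
  rw [hempty] at hw
  have hβs : IsSmooth β' := fun V φ hV hφ => hw.smβ V φ hV hφ fun p _ => notMem_empty _
  have hws : IsSmooth w := fun V φ hV hφ => hw.smooth V φ hV hφ fun p _ => notMem_empty _
  have hρ : IsSmooth (w - σ₀) := by
    have h7 := hws.add (hσ₀.smul (-1))
    have h8 : w + (-1 : ℝ) • σ₀ = w - σ₀ := by
      funext x
      ext u
      change w x u + (-1 : ℝ) * σ₀ x u = w x u - σ₀ x u
      ring
    rwa [h8] at h7
  have hd' : IsD β' (w - σ₀) := fun V φ hV hφ => hw.isD V φ hV hφ fun p _ => notMem_empty _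
  have hcl : IsClosedForm (σ₀ + (w - σ₀)) := by
    have h1 := hσ₀c.add (closed_of_isD hβs hρ hd') hσ₀ hρ
    rwa [add_zero] at h1
  refine ⟨β', w - σ₀, hβs, hρ, hd', hcl, fun z => ?_⟩
  rw [add_sub_cancel]
  have hz := mem_chart_target (E d) z
  obtain ⟨c, hc, h1, h2⟩ := vt_smooth (((hws _ _ (chartAt (E d) z).open_target
    (contMDiffOn_chart_symm (x := z) (n := ∞) (I := 𝓡 d))).continuousOn).continuousAt
    ((chartAt (E d) z).open_target.mem_nhds hz)) (hw.vt z _ hz)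
  refine ⟨c, hc, h1, fun τ hτ θ hθ0 hθ1 => ?_⟩
  have h3 := h2 _ ⟨τ, hτ, rfl⟩ θ hθ0 hθ1
  rw [pb_add, pb_smul, pb_smul]
  exact h3

end

end Pool.Agent.U896.VT
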